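import Pool.Agent.helper85.AQ.SpecL

set_option autoImplicit false

namespace Pool.Agent.AQ

open Pool.Agent.GJ
open scoped TensorProduct

noncomputable section

section

variable {Ω V : Type} [Field Ω] [CharZero Ω] [AddCommGroup V] [Module Ω V] {n : ℕ}
  (v : Module.Basis (Fin n) Ω V) (b : Submodule Ω (V →ₗ[Ω] V))

omit [CharZero Ω] in
theorem LBK_repr (x : Fin n → Ω) (w : V) (u : Fin n) : v.repr (dg v x w) u = x u * v.repr w u := by
  have h : (v.coord u) ∘ₗ (dg v x) = x u • v.coord u := by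
    apply v.ext
    intro i
    rw [LinearMap.comp_apply, dg_apply, map_smul, LinearMap.smul_apply]
    by_cases hi : i = u
    · rw [hi]
    · simp [Module.Basis.coord_apply, Module.Basis.repr_self, hi]
  have := congrArg (fun f => f w) h
  simpa using this

/-- stable under `b` -/
def LBK_S (W : Submodule Ω V) : Prop := ∀ M ∈ b, ∀ w ∈ W, M w ∈ W

theorem LBK_x (hn : n ≠ 0) : ∃ x : Fin n → Ω, ∑ t, x t = 0 ∧ Function.Injective x := by
  refine ⟨fun t => ((t : ℕ) : Ω) - (∑ i : Fin n, ((i : ℕ) : Ω)) / n, ?_, ?_⟩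
  · rw [Finset.sum_sub_distrib, Finset.sum_const, Finset.card_univ, Fintype.card_fin, nsmul_eq_mul]
    have : (n : Ω) ≠ 0 := by exact_mod_cast hn
    field_simp
    ring
  · intro s t h
    have h2 : ((s : ℕ) : Ω) = ((t : ℕ) : Ω) := by
      simpa using h
    have h3 : (s : ℕ) = t := by exact_mod_cast h2
    exact Fin.ext h3

theorem LBK_mem (hb2 : ∀ x : Fin n → Ω, ∑ t, x t = 0 → dg v x ∈ b) {W : Submodule Ω V} (hW : LBK_S b W)
    {w : V} (hw : w ∈ W) {s : Fin n} (hs : v.repr w s ≠ 0) : v s ∈ W := by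
  have hn : n ≠ 0 := by
    rintro rfl
    exact s.elim0
  obtain ⟨x, hx0, hxi⟩ := LBK_x (Ω := Ω) hn
  have hD := hb2 x hx0
  have key : ∀ F : Finset (Fin n), s ∉ F → ∃ w' ∈ W, v.repr w' s ≠ 0 ∧ ∀ t ∈ F, v.repr w' t = 0 := by
    intro F
    induction F using Finset.induction_on with
    | empty =>
      intro _
      exact ⟨w, hw, hs, fun t ht => absurd ht (Finset.notMem_empty t)⟩
    | insert a F ha ih =>
      intro hsa
      rw [Finset.mem_insert, not_or] at hsa
      obtain ⟨w', hw', h1, h2⟩ := ih hsa.2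
      refine ⟨dg v x w' - x a • w', W.sub_mem (hW _ hD _ hw') (W.smul_mem _ hw'), ?_, ?_⟩
      · rw [map_sub, Finsupp.sub_apply, LBK_repr, map_smul, Finsupp.smul_apply, smul_eq_mul, ← sub_mul]
        exact mul_ne_zero (sub_ne_zero.2 fun h => hsa.1 (hxi h)) h1
      · intro t ht
        rw [map_sub, Finsupp.sub_apply, LBK_repr, map_smul, Finsupp.smul_apply, smul_eq_mul, ← sub_mul]
        rw [Finset.mem_insert] at ht
        rcases ht with rfl | ht
        · rw [sub_self, zero_mul]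
        · rw [h2 t ht, mul_zero]
  obtain ⟨w', hw', h1, h2⟩ := key (Finset.univ.erase s) (Finset.notMem_erase s _)
  have h3 : w' = v.repr w' s • v s := by
    apply v.repr.injective
    ext t
    by_cases ht : t = s
    · rw [ht]
      simp
    · rw [h2 t (Finset.mem_erase.2 ⟨ht, Finset.mem_univ t⟩)]
      simp [Ne.symm ht]
  have h4 := W.smul_mem (v.repr w' s)⁻¹ hw'
  rw [h3] at h4
  simp only [map_smul, Module.Basis.repr_self, Finsupp.smul_apply, Finsupp.single_eq_same, smul_eq_mul, mul_one] at h4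
  rwa [smul_smul, inv_mul_cancel₀ h1, one_smul] at h4

theorem LBK_eq (hb2 : ∀ x : Fin n → Ω, ∑ t, x t = 0 → dg v x ∈ b) {W : Submodule Ω V} (hW : LBK_S b W) :
    W = Submodule.span Ω (v '' {t | v t ∈ W}) := by
  apply le_antisymm
  · intro w hw
    rw [← v.sum_repr w]
    apply Submodule.sum_mem
    intro i _
    by_cases hi : v.repr w i = 0
    · rw [hi, zero_smul]
      exact Submodule.zero_mem _
    · exact Submodule.smul_mem _ _ (Submodule.subset_span ⟨i, LBK_mem v b hb2 hW hw hi, rfl⟩)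
  · rw [Submodule.span_le]
    rintro _ ⟨t, ht, rfl⟩
    exact ht

theorem LBK_fin (hb2 : ∀ x : Fin n → Ω, ∑ t, x t = 0 → dg v x ∈ b) : {W : Submodule Ω V | LBK_S b W}.Finite := by
  apply Set.Finite.of_finite_image (f := fun W : Submodule Ω V => {t : Fin n | v t ∈ W}) (Set.toFinite _)
  intro W hW W' hW' h
  have h2 : {t : Fin n | v t ∈ W} = {t : Fin n | v t ∈ W'} := h
  rw [LBK_eq v b hb2 hW, LBK_eq v b hb2 hW', h2]

/-- the minimal stable subspaces -/
def LBK_M : Set (Submodule Ω V) := {W | LBK_S b W ∧ W ≠ ⊥ ∧ ∀ W', LBK_S b W' → W' ≠ ⊥ → W' ≤ W → W' = W}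

omit [CharZero Ω] in
theorem LBK_nz {W : Submodule Ω V} (hW : W ≠ ⊥) : ∃ w ∈ W, ∃ s, v.repr w s ≠ 0 := by
  obtain ⟨w, hw, hw0⟩ := Submodule.exists_mem_ne_zero_of_ne_bot hW
  refine ⟨w, hw, ?_⟩
  by_contra h
  push Not at h
  apply hw0
  apply v.repr.injective
  ext s
  rw [h s]
  simp

omit [CharZero Ω] in
theorem LBK_stab {G : Subgroup (V ≃ₗ[Ω] V)} (hG : ∀ g ∈ G, ∀ M ∈ b, cj g M ∈ b) {g : V ≃ₗ[Ω] V} (hg : g ∈ G)
    {W : Submodule Ω V} (hW : LBK_S b W) : LBK_S b (im g W) := by
  rintro M hM _ ⟨u, hu, rfl⟩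
  have h1 := hG g⁻¹ (G.inv_mem hg) M hM
  refine ⟨cj g⁻¹ M u, hW _ h1 u hu, ?_⟩
  show g (g⁻¹ (M (g⁻¹.symm u))) = M (g u)
  have h2 : g⁻¹.symm = g := rfl
  rw [h2]
  exact g.apply_symm_apply _

omit [CharZero Ω] in
theorem LBK_imim (g : V ≃ₗ[Ω] V) (W : Submodule Ω V) : im g (im g⁻¹ W) = W := by
  ext w
  constructor
  · rintro ⟨_, ⟨u, hu, rfl⟩, rfl⟩
    have : g (g⁻¹ u) = u := g.apply_symm_apply u
    show g (g⁻¹ u) ∈ W
    rw [this]
    exact hu
  · intro hw
    refine ⟨g⁻¹ w, ⟨w, hw, rfl⟩, ?_⟩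
    exact g.apply_symm_apply w

omit [CharZero Ω] in
theorem LBK_mono (g : V ≃ₗ[Ω] V) {W W' : Submodule Ω V} (h : W ≤ W') : im g W ≤ im g W' := Submodule.map_mono h

omit [CharZero Ω] in
theorem LBK_imbot (g : V ≃ₗ[Ω] V) {W : Submodule Ω V} (h : W ≠ ⊥) : im g W ≠ ⊥ := by
  intro h2
  apply h
  rw [eq_bot_iff]
  intro w hw
  have h3 : g w ∈ im g W := ⟨w, hw, rfl⟩
  rw [h2, Submodule.mem_bot] at h3
  rw [Submodule.mem_bot]
  exact g.map_eq_zero_iff.1 h3

omit [CharZero Ω] in
theorem LBK_min {G : Subgroup (V ≃ₗ[Ω] V)} (hG : ∀ g ∈ G, ∀ M ∈ b, cj g M ∈ b) {g : V ≃ₗ[Ω] V} (hg : g ∈ G)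
    {W : Submodule Ω V} (hW : W ∈ LBK_M b) : im g W ∈ LBK_M b := by
  refine ⟨LBK_stab b hG hg hW.1, LBK_imbot g hW.2.1, fun W' h1 h2 h3 => ?_⟩
  have hg' := G.inv_mem hg
  have h4 : im g⁻¹ W' ≤ W := by
    have := LBK_mono g⁻¹ h3
    have e : im g⁻¹ (im g W) = W := by
      have := LBK_imim g⁻¹ W
      rwa [inv_inv] at this
    rwa [e] at this
  have h5 := hW.2.2 _ (LBK_stab b hG hg' h1) (LBK_imbot g⁻¹ h2) h4
  rw [← h5, LBK_imim]

theorem LBK_ex (hb2 : ∀ x : Fin n → Ω, ∑ t, x t = 0 → dg v x ∈ b) (hne : (⊤ : Submodule Ω V) ≠ ⊥) : (LBK_M b).Nonempty := by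
  have hf : {W : Submodule Ω V | LBK_S b W ∧ W ≠ ⊥}.Finite := (LBK_fin v b hb2).subset fun W hW => hW.1
  have hne2 : {W : Submodule Ω V | LBK_S b W ∧ W ≠ ⊥}.Nonempty := ⟨⊤, fun M _ w _ => Submodule.mem_top, hne⟩
  obtain ⟨W, hW⟩ := hf.exists_minimal hne2
  exact ⟨W, hW.prop.1, hW.prop.2, fun W' h1 h2 h3 => le_antisymm h3 (hW.le_of_le ⟨h1, h2⟩ h3)⟩

omit [CharZero Ω] in
theorem LBK_el (s t i : Fin n) : el v s t (v i) = if i = t then v s else 0 := v.constr_basis Ω _ i

omit [CharZero Ω] in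
theorem LBK_br {r s t : Fin n} (hrt : r ≠ t) : el v r s ∘ₗ el v s t - el v s t ∘ₗ el v r s = el v r t := by
  apply v.ext
  intro i
  rw [LinearMap.sub_apply, LinearMap.comp_apply, LinearMap.comp_apply, LBK_el, LBK_el, LBK_el]
  by_cases hi : i = t
  · rw [if_pos hi, LBK_el, if_pos rfl, if_pos hi]
    by_cases h2 : i = s
    · rw [if_pos h2, LBK_el, if_neg hrt, sub_zero]
    · rw [if_neg h2, map_zero, sub_zero]
  · rw [if_neg hi, if_neg hi, map_zero]
    by_cases h2 : i = s
    · rw [if_pos h2, LBK_el, if_neg hrt, sub_zero]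
    · rw [if_neg h2, map_zero, sub_zero]

omit [CharZero Ω] in
theorem LBK_dec (M : V →ₗ[Ω] V) : M = dg v (fun i => v.repr (M (v i)) i) +
    ∑ i, ∑ j, (if i = j then 0 else v.repr (M (v j)) i) • el v i j := by
  classical
  apply v.ext
  intro k
  rw [LinearMap.add_apply, dg_apply, LinearMap.sum_apply]
  have h1 : ∀ i : Fin n, (∑ j, (if i = j then 0 else v.repr (M (v j)) i) • el v i j) (v k) =
      (if i = k then 0 else v.repr (M (v k)) i) • v i := by
    intro i
    rw [LinearMap.sum_apply, Finset.sum_eq_single k]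
    · rw [LinearMap.smul_apply, LBK_el, if_pos rfl]
    · intro j _ hj
      rw [LinearMap.smul_apply, LBK_el, if_neg (Ne.symm hj), smul_zero]
    · intro h
      exact absurd (Finset.mem_univ k) h
  rw [Finset.sum_congr rfl fun i _ => h1 i]
  rw [← Finset.add_sum_erase Finset.univ _ (Finset.mem_univ k), if_pos rfl, zero_smul, zero_add]
  conv_lhs => rw [← v.sum_repr (M (v k))]
  rw [← Finset.add_sum_erase Finset.univ _ (Finset.mem_univ k)]
  congr 1
  apply Finset.sum_congr rfl
  intro i hi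
  rw [if_neg (Finset.ne_of_mem_erase hi)]

theorem LBK_irr (hLRT : LRT_stmt) (hb1 : ∀ M ∈ b, ∀ N ∈ b, M ∘ₗ N - N ∘ₗ M ∈ b)
    (hb2 : ∀ x : Fin n → Ω, ∑ t, x t = 0 → dg v x ∈ b) (hirr : ∀ W, LBK_S b W → W ≠ ⊥ → W = ⊤)
    (M : V →ₗ[Ω] V) (hM : LinearMap.trace Ω V M = 0) : M ∈ b := by
  classical
  have hel : ∀ s t : Fin n, s ≠ t → el v s t ∈ b := by
    intro s t hst
    set R : Set (Fin n) := {s | s = t ∨ el v s t ∈ b} with hR
    have hU : LBK_S b (Submodule.span Ω (v '' R)) := by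
      intro N hN w hw
      induction hw using Submodule.span_induction with
      | zero => rw [map_zero]; exact Submodule.zero_mem _
      | add x y _ _ hx hy => rw [map_add]; exact Submodule.add_mem _ hx hy
      | smul c x _ hx => rw [map_smul]; exact Submodule.smul_mem _ _ hx
      | mem x hx =>
        obtain ⟨u, hu, rfl⟩ := hx
        rw [← v.sum_repr (N (v u))]
        apply Submodule.sum_mem
        intro r _
        by_cases h0 : v.repr (N (v u)) r = 0
        · rw [h0, zero_smul]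
          exact Submodule.zero_mem _
        · apply Submodule.smul_mem
          apply Submodule.subset_span
          refine ⟨r, ?_, rfl⟩
          by_cases hru : r = u
          · rw [hru]
            exact hu
          · by_cases hrt : r = t
            · exact Or.inl hrt
            · right
              have h5 := hLRT Ω V n v b hb1 hb2 N hN r u hru h0
              rcases hu with hu | hu
              · rw [hu] at h5
                exact h5
              · have h6 := hb1 _ h5 _ hu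
                rwa [LBK_br v hrt] at h6
    have hne : Submodule.span Ω (v '' R) ≠ ⊥ := by
      intro h
      have h7 : v t ∈ Submodule.span Ω (v '' R) := Submodule.subset_span ⟨t, Or.inl rfl, rfl⟩
      rw [h, Submodule.mem_bot] at h7
      exact v.ne_zero t h7
    have htop := hirr _ hU hne
    have hs : v s ∈ Submodule.span Ω (v '' R) := by
      rw [htop]
      exact Submodule.mem_top
    rw [v.mem_span_image] at hs
    have h8 : s ∈ R := by
      apply hs
      rw [Module.Basis.repr_self, Finsupp.support_single s one_ne_zero]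
      exact Finset.mem_coe.2 (Finset.mem_singleton_self s)
    rcases h8 with h8 | h8
    · exact absurd h8 hst
    · exact h8
  rw [LBK_dec v M]
  apply b.add_mem
  · apply hb2
    rw [LinearMap.trace_eq_matrix_trace Ω v M] at hM
    rw [← hM]
    simp [Matrix.trace, LinearMap.toMatrix_apply]
  · apply b.sum_mem
    intro i _
    apply b.sum_mem
    intro j _
    by_cases hij : i = j
    · rw [if_pos hij, zero_smul]
      exact b.zero_mem
    · exact b.smul_mem _ (hel i j hij)

end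

theorem LBK (hLRT : LRT_stmt) : LBK_stmt := by
  classical
  intro Ω V _ _ _ _ n v b hb1 hb2 G hG hirr
  by_cases htop : (⊤ : Submodule Ω V) = ⊥
  · left
    intro M _
    have : M = 0 := by
      ext w
      have h1 : w ∈ (⊤ : Submodule Ω V) := Submodule.mem_top
      rw [htop, Submodule.mem_bot] at h1
      rw [h1, map_zero, map_zero]
    rw [this]
    exact b.zero_mem
  have hfin : (LBK_M b).Finite := (LBK_fin v b hb2).subset fun W hW => hW.1
  by_cases h : ∃ g ∈ G, ∃ W ∈ LBK_M b, im g W ≠ W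
  · right
    refine ⟨hfin.toFinset, ⟨?_, ?_⟩, ?_, ?_, ?_⟩
    · intro W hW
      rw [Set.Finite.mem_toFinset] at hW
      exact hW.2.1
    · intro W hW W' hW' hne
      rw [Set.Finite.mem_toFinset] at hW hW'
      rw [disjoint_iff]
      by_contra h0
      have hst : LBK_S b (W ⊓ W') := fun M hM w hw => ⟨hW.1 M hM w hw.1, hW'.1 M hM w hw.2⟩
      have h1 := hW.2.2 _ hst h0 inf_le_left
      have h2 := hW'.2.2 _ hst h0 inf_le_right
      exact hne (h1.symm.trans h2)
    · have hch : ∀ W : Submodule Ω V, W ∈ LBK_M b → ∃ t, v t ∈ W := by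
        intro W hW
        obtain ⟨w, hw, s, hs⟩ := LBK_nz v hW.2.1
        exact ⟨s, LBK_mem v b hb2 hW.1 hw hs⟩
      have hnon : Nonempty (Fin n) := by
        obtain ⟨_, _, W, hW, _⟩ := h
        obtain ⟨t, _⟩ := hch W hW
        exact ⟨t⟩
      choose! f hf using hch
      have hc := Finset.card_le_card_of_injOn (s := hfin.toFinset) (t := Finset.univ) f (fun _ _ => Finset.mem_coe.2 (Finset.mem_univ _)) (by
        intro W hW W' hW' he
        rw [Finset.mem_coe, Set.Finite.mem_toFinset] at hW hW'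
        by_contra hne
        have hst : LBK_S b (W ⊓ W') := fun M hM w hw => ⟨hW.1 M hM w hw.1, hW'.1 M hM w hw.2⟩
        have h0 : W ⊓ W' ≠ ⊥ := by
          intro h0
          have h1 : v (f W) ∈ W ⊓ W' := ⟨hf W hW, by rw [he]; exact hf W' hW'⟩
          rw [h0, Submodule.mem_bot] at h1
          exact v.ne_zero _ h1
        have h1 := hW.2.2 _ hst h0 inf_le_left
        have h2 := hW'.2.2 _ hst h0 inf_le_right
        exact hne (h1.symm.trans h2))
      rwa [Finset.card_univ, Fintype.card_fin] at hc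
    · intro g hg W hW
      rw [Set.Finite.mem_toFinset] at hW ⊢
      exact LBK_min b hG hg hW
    · obtain ⟨g, hg, W, hW, hne⟩ := h
      exact ⟨g, hg, W, (Set.Finite.mem_toFinset _).2 hW, hne⟩
  · left
    push Not at h
    obtain ⟨W0, hW0⟩ := LBK_ex v b hb2 htop
    have hW0top : W0 = ⊤ := by
      rcases hirr W0 (by
        intro g hg w hw
        have h1 := h g hg W0 hW0
        have h2 : g w ∈ im g W0 := ⟨w, hw, rfl⟩
        rwa [h1] at h2) with h1 | h1
      · exact absurd h1 hW0.2.1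
      · exact h1
    intro M hM
    apply LBK_irr v b hLRT hb1 hb2 ?_ M hM
    intro W hW hne
    have := hW0.2.2 W hW hne (by rw [hW0top]; exact le_top)
    rw [this, hW0top]

end

end Pool.Agent.AQ
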